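import Pool.Agent.R795.EX.Walk

open CategoryTheory Opposite PartialOrder

namespace Pool.Agent.R795.EX

/-- The order of the fence: every even number is below its odd neighbours. -/
def fle (a b : ℕ) : Prop := a = b ∨ (Even a ∧ (b = a + 1 ∨ a = b + 1))

lemma fle_refl (a : ℕ) : fle a a := Or.inl rfl

lemma fle_trans {a b c : ℕ} (h : fle a b) (h' : fle b c) : fle a c := by
  rcases h with rfl | ⟨h1, h2⟩
  · exact h'
  · rcases h' with rfl | ⟨h3, h4⟩
    · exact Or.inr ⟨h1, h2⟩
    · exfalso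
      rw [Nat.even_iff] at h1 h3
      omega

lemma fle_antisymm {a b : ℕ} (h : fle a b) (h' : fle b a) : a = b := by
  rcases h with rfl | ⟨h1, h2⟩
  · rfl
  · rcases h' with rfl | ⟨h3, h4⟩
    · rfl
    · exfalso
      rw [Nat.even_iff] at h1 h3
      omega

/-- The fence `0 < 1 > 2 < 3 > ⋯ M`. -/
structure Fence (M : ℕ) where
  /-- the position on the fence -/
  val : ℕ
  le_M : val ≤ M

instance (M : ℕ) : PartialOrder (Fence M) where
  le a b := fle a.val b.val
  le_refl a := fle_refl _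
  le_trans a b c := fle_trans
  le_antisymm a b h h' := by
    cases a
    cases b
    have := fle_antisymm h h'
    simp only at this
    subst this
    rfl

lemma fence_le {M : ℕ} {a b : Fence M} : a ≤ b ↔ fle a.val b.val := Iff.rfl

/-- The least value of an upper neighbour. -/
def al (v : ℕ) : ℕ := if v % 2 = 0 then v - 1 else v

/-- The least value of a lower neighbour. -/
def be (v : ℕ) : ℕ := if v % 2 = 0 then v else v - 1

lemma al_le (v : ℕ) : al v ≤ v := by unfold al; split <;> omega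

lemma be_le (v : ℕ) : be v ≤ v := by unfold be; split <;> omega

lemma al_mono {v w : ℕ} (h : v ≤ w) : al v ≤ al w := by unfold al; split <;> split <;> omega

lemma be_mono {v w : ℕ} (h : v ≤ w) : be v ≤ be w := by unfold be; split <;> split <;> omega

lemma al_zero : al 0 = 0 := rfl

lemma be_zero : be 0 = 0 := rfl

lemma fle_iff (a b : ℕ) : fle a b ↔ al a ≤ b ∧ be b ≤ a := by
  unfold fle al be
  rw [Nat.even_iff]
  split <;> split <;> omega

/-- The least value after a number of zigzags. -/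
def cc (w : ℕ) : ℕ → ℕ
  | 0 => w
  | s + 1 => be (al (cc w s))

lemma cc_le {w M : ℕ} (hM : M % 2 = 0) (h : w ≤ M) (s : ℕ) : cc w s ≤ M - 2 * s := by
  induction s with
  | zero => exact h
  | succ s ih =>
    change be (al (cc w s)) ≤ _
    unfold be al
    split_ifs <;> omega

section
variable {Q P : Type} [PartialOrder Q] [PartialOrder P]

lemma cc_walk {M : ℕ} (f : Q →o Fence M) {s : ℕ} {q q' : Q} (h : UD s q q') :
    cc (f q).val s ≤ (f q').val := by
  induction h with
  | refl => exact le_rfl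
  | @step s x r p y _ h2 h3 ih =>
    change be (al (cc (f x).val s)) ≤ _
    have e1 := ((fle_iff _ _).1 (f.monotone h2)).1
    have e2 := ((fle_iff _ _).1 (f.monotone h3)).2
    exact (be_mono ((al_mono ih).trans e1)).trans e2

/-- The lower bounds for the values of an extension. -/
inductive LB (i : Q →o P) (f : Q → ℕ) : P → ℕ → Prop
  | base (q : Q) : LB i f (i q) (f q)
  | zero (p : P) : LB i f p 0
  | up {p p' : P} {v : ℕ} : LB i f p v → p ≤ p' → LB i f p' (al v)
  | dn {p p' : P} {v : ℕ} : LB i f p v → p' ≤ p → LB i f p' (be v)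

lemma lb_inv {i : Q →o P} (hi : DC i) {N M : ℕ} (hN : KP N i) (hM : M % 2 = 0) (hMN : M ≤ N)
    (f : Q →o Fence M) {p : P} {v : ℕ} (h : LB i (fun q => (f q).val) p v) :
    (∀ q, i q = p → v ≤ (f q).val) ∧
    ((∀ q, i q ≠ p) → v = 0 ∨ ∃ q s, (∃ r, UD s (i q) r ∧ r ≤ p ∧ v ≤ al (cc (f q).val s)) ∨
      (1 ≤ s ∧ UD s (i q) p ∧ v ≤ cc (f q).val s)) := by
  -- the bound at the end of an excursion
  have key : ∀ (q q' : Q) (s : ℕ), UD s (i q) (i q') → cc (f q).val s ≤ (f q').val := by
    intro q q' s hs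
    rcases lt_or_ge (2 * s) N with h1 | h1
    · exact cc_walk f (hN s h1 q q' hs)
    · have := cc_le hM (f q).le_M s
      omega
  induction h with
  | base q =>
    refine ⟨fun q' hq' => ?_, fun h => absurd rfl (h q)⟩
    rw [hi.inj hq']
  | zero p => exact ⟨fun _ _ => Nat.zero_le _, fun _ => Or.inl rfl⟩
  | @up p p' v _ hpp ih =>
    obtain ⟨ih1, ih2⟩ := ih
    by_cases hp : ∃ q, i q = p
    · obtain ⟨q, rfl⟩ := hp
      have h1 := ih1 q rfl
      refine ⟨fun q' hq' => ?_, fun hq' => ?_⟩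
      · subst hq'
        have e1 := ((fle_iff _ _).1 (f.monotone (hi.emb _ _ hpp))).1
        exact (al_mono h1).trans e1
      · exact Or.inr ⟨q, 0, Or.inl ⟨i q, UD.refl _, hpp, al_mono h1⟩⟩
    · have hp' : ∀ q, i q ≠ p := fun q hq => hp ⟨q, hq⟩
      refine ⟨fun q' hq' => ?_, fun _ => ?_⟩
      · subst hq'
        obtain ⟨q', hq'⟩ := hi.down _ _ hpp
        exact absurd hq' (hp' q')
      · rcases ih2 hp' with rfl | ⟨q, s, ⟨r, h1, h2, h3⟩ | ⟨h1, h2, h3⟩⟩
        · exact Or.inl al_zero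
        · exact Or.inr ⟨q, s, Or.inl ⟨r, h1, h2.trans hpp, (al_le _).trans h3⟩⟩
        · exact Or.inr ⟨q, s, Or.inl ⟨p, h2, hpp, al_mono h3⟩⟩
  | @dn p p' v _ hpp ih =>
    obtain ⟨ih1, ih2⟩ := ih
    by_cases hp : ∃ q, i q = p
    · obtain ⟨q, rfl⟩ := hp
      have h1 := ih1 q rfl
      refine ⟨fun q' hq' => ?_, fun hq' => ?_⟩
      · subst hq'
        have e1 := ((fle_iff _ _).1 (f.monotone (hi.emb _ _ hpp))).2
        exact (be_mono h1).trans e1
      · obtain ⟨q', hq⟩ := hi.down _ _ hpp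
        exact absurd hq (hq' q')
    · have hp' : ∀ q, i q ≠ p := fun q hq => hp ⟨q, hq⟩
      have h4 : be v = 0 ∨ ∃ q s, 1 ≤ s ∧ UD s (i q) p' ∧ be v ≤ cc (f q).val s := by
        rcases ih2 hp' with rfl | ⟨q, s, ⟨r, h1, h2, h3⟩ | ⟨h1, h2, h3⟩⟩
        · exact Or.inl be_zero
        · exact Or.inr ⟨q, s + 1, by omega, UD.step h1 h2 hpp, be_mono h3⟩
        · exact Or.inr ⟨q, s, h1, h2.le_right h1 hpp, (be_le _).trans h3⟩
      refine ⟨fun q' hq' => ?_, fun _ => ?_⟩
      · subst hq'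
        rcases h4 with h4 | ⟨q, s, _, h5, h6⟩
        · rw [h4]
          exact Nat.zero_le _
        · exact h6.trans (key q q' s h5)
      · rcases h4 with h4 | ⟨q, s, h5, h6, h7⟩
        · exact Or.inl h4
        · exact Or.inr ⟨q, s, Or.inr ⟨h5, h6, h7⟩⟩

/-- Extension of monotone maps to a fence. -/
theorem fence_ext {i : Q →o P} (hi : DC i) {N M : ℕ} (hN : KP N i) (hM : M % 2 = 0) (hMN : M ≤ N)
    (f : Q →o Fence M) : ∃ g : P →o Fence M, ∀ q, g (i q) = f q := by
  classical
  let g0 : P → ℕ := fun p => Nat.findGreatest (fun v => LB i (fun q => (f q).val) p v) M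
  have hg0 : ∀ p, LB i (fun q => (f q).val) p (g0 p) := fun p =>
    Nat.findGreatest_spec (P := fun v => LB i (fun q => (f q).val) p v) (Nat.zero_le M)
      (LB.zero p)
  have hg1 : ∀ p v, v ≤ M → LB i (fun q => (f q).val) p v → v ≤ g0 p := fun p v hv h =>
    Nat.le_findGreatest hv h
  have hgM : ∀ p, g0 p ≤ M := fun p => Nat.findGreatest_le M
  refine ⟨⟨fun p => ⟨g0 p, hgM p⟩, ?_⟩, ?_⟩
  · intro p p' hpp
    change fle (g0 p) (g0 p')
    rw [fle_iff]
    exact ⟨hg1 _ _ ((al_le _).trans (hgM _)) ((hg0 p).up hpp),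
      hg1 _ _ ((be_le _).trans (hgM _)) ((hg0 p').dn hpp)⟩
  · intro q
    have h1 : g0 (i q) ≤ (f q).val := (lb_inv hi hN hM hMN f (hg0 (i q))).1 q rfl
    have h2 : (f q).val ≤ g0 (i q) := hg1 _ _ (f q).le_M (LB.base q)
    change (⟨g0 (i q), hgM (i q)⟩ : Fence M) = f q
    cases hfq : f q with
    | mk v hv =>
      simp only [Fence.mk.injEq]
      rw [hfq] at h1 h2
      exact le_antisymm h1 h2

/-- Morphisms between nerves of posets come from monotone maps. -/
lemma exists_nm {F : Type} [PartialOrder F] (f : nerve Q ⟶ nerve F) :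
    ∃ f0 : Q →o F, nm f0 = f := by
  let c0 : Q → (nerve Q).obj (op (SimplexCategory.mk 0)) := fun q =>
    ofHom (n := SimplexCategory.mk 0) ⟨fun _ => q, fun _ _ _ => le_rfl⟩
  let f0 : Q → F := fun q => (f.app (op (SimplexCategory.mk 0)) (c0 q)).obj (0 : Fin 1)
  have key : ∀ (p : SimplexCategoryᵒᵖ) (s : (nerve Q).obj p) (k : Fin (p.unop.len + 1)),
      (f.app p s).obj k = f0 (s.obj k) := by
    intro p s k
    let θ' : SimplexCategory.mk 0 ⟶ p.unop :=
      SimplexCategory.mkHom ⟨fun _ => k, fun _ _ _ => le_rfl⟩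
    let θ : p ⟶ op (SimplexCategory.mk 0) := θ'.op
    have h1 := f.naturality_apply θ s
    have h2 : (nerve Q).map θ s = c0 (s.obj k) := by
      apply nerve_ext
      intro a
      rfl
    rw [h2] at h1
    have h3 := congrArg (fun z : (nerve F).obj (op (SimplexCategory.mk 0)) => z.obj (0 : Fin 1)) h1
    exact h3.symm
  have hmono : Monotone f0 := by
    intro a b hab
    let s : (nerve Q).obj (op (SimplexCategory.mk 1)) :=
      ofHom (n := SimplexCategory.mk 1) ⟨fun x => if x.down = 0 then a else b, by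
        intro x y hxy
        obtain ⟨x⟩ := x
        obtain ⟨y⟩ := y
        have hxy' : x ≤ y := hxy
        change (if x = 0 then a else b) ≤ (if y = 0 then a else b)
        split_ifs with h1 h2
        · exact le_rfl
        · exact hab
        · exfalso
          rename_i h3
          subst h3
          exact h1 (Fin.le_zero_iff.1 hxy')
        · exact le_rfl⟩
    have h0 := key _ s (0 : Fin 2)
    have h1 := key _ s (1 : Fin 2)
    have e0 : s.obj (0 : Fin 2) = a := rfl
    have e1 : s.obj (1 : Fin 2) = b := rfl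
    rw [e0] at h0
    rw [e1] at h1
    rw [← h0, ← h1]
    exact leOfHom ((f.app _ s).map (homOfLE (Fin.zero_le (1 : Fin 2))))
  refine ⟨⟨f0, hmono⟩, ?_⟩
  apply sset_ext
  intro p s
  apply nerve_ext
  intro k
  rw [key]
  rfl

/-- The iterates of the functor `ex`. -/
noncomputable def exIter (X : SSet.{0}) : ℕ → SSet.{0}
  | 0 => X
  | n + 1 => SSet.ex.{0}.obj (exIter X n)

theorem nExt_exIter (n : ℕ) : ∀ {Q P : Type} [PartialOrder Q] [PartialOrder P] (i : Q →o P)
    (_ : DC i) (N M : ℕ) (_ : KP N i) (_ : M % 2 = 0) (_ : M ≤ 2 ^ n * N),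
    NExt i (exIter (nerve (Fence M)) n) := by
  induction n with
  | zero =>
    intro Q P _ _ i hi N M hN hM hMN f
    obtain ⟨f0, rfl⟩ := exists_nm f
    obtain ⟨g, hg⟩ := fence_ext hi hN hM (by simpa using hMN) f0
    refine ⟨nm g, ?_⟩
    apply sset_ext
    intro p s
    apply nerve_ext
    intro k
    exact hg _
  | succ n ih =>
    intro Q P _ _ i hi N M hN hM hMN
    apply nExt_ex
    apply ih (chm i) hi.chm (2 * N) M (hN.chm hi) hM
    calc M ≤ 2 ^ (n + 1) * N := hMN
      _ = 2 ^ n * (2 * N) := by ring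

lemma dc_horn (m : ℕ) (k : Fin (m + 2)) : DC (hornI m k) where
  emb _ _ h := h
  down p q hpq := by
    obtain ⟨c, j, hj, hj2⟩ := q
    exact ⟨⟨p, j, hj, fun h => hj2 (hpq h)⟩, rfl⟩

/-- The iterated `ex` of the nerve of a fence is a Kan complex. -/
theorem kan_fence (n M : ℕ) (hM : M % 2 = 0) (hMn : M ≤ 2 ^ (n + 1)) :
    SSet.KanComplex (exIter (nerve (Fence M)) (n + 1)) := by
  apply kan_ex
  intro m k
  apply nExt_exIter n (hornI m k) (dc_horn m k) 2 M (kp_two (dc_horn m k)) hM
  calc M ≤ 2 ^ (n + 1) := hMn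
    _ = 2 ^ n * 2 := by ring

end

end Pool.Agent.R795.EX
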