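import Mathlib

open CategoryTheory Simplicial Opposite PartialOrder

namespace Pool.Agent.R795.EX

/-- The type of vertices of the standard simplex of dimension `n`. -/
abbrev V (n : SimplexCategory) : Type := ULift.{0} (Fin (n.len + 1))

/-- The poset of nonempty finite chains. -/
abbrev Ch (P : Type) [PartialOrder P] : Type := NonemptyFiniteChains P

/-- The monotone map of vertices given by a morphism of the simplex category. -/
def vmap {n m : SimplexCategory} (θ : n ⟶ m) : V n →o V m :=
  (SimplexCategory.toPartOrd.{0}.map θ).hom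

lemma vmap_apply {n m : SimplexCategory} (θ : n ⟶ m) (i : V n) :
    vmap θ i = ULift.up (θ i.down) := rfl

/-- The morphism of simplicial sets induced on nerves by a monotone map. -/
abbrev nm {P Q : Type} [PartialOrder P] [PartialOrder Q] (f : P →o Q) : nerve P ⟶ nerve Q :=
  nerveMap f.monotone.functor

/-- The map induced on nerves of chains. -/
noncomputable abbrev chm {P Q : Type} [PartialOrder P] [PartialOrder Q] (f : P →o Q) :
    Ch P →o Ch Q := NonemptyFiniteChains.orderHomMap f

lemma sd_obj (n : SimplexCategory) :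
    SimplexCategory.sd.{0}.obj n = nerve (Ch (V n)) := rfl

lemma sd_map {n m : SimplexCategory} (θ : n ⟶ m) :
    SimplexCategory.sd.{0}.map θ = nm (chm (vmap θ)) := rfl

lemma nm_app {P Q : Type} [PartialOrder P] [PartialOrder Q] (f : P →o Q) (p : SimplexCategoryᵒᵖ)
    (s : (nerve P).obj p) (k : Fin (p.unop.len + 1)) :
    ((nm f).app p s).obj k = f (s.obj k) := rfl

lemma nerve_ext {P : Type} [PartialOrder P] {p : SimplexCategoryᵒᵖ} {s t : (nerve P).obj p}
    (h : ∀ k, s.obj k = t.obj k) : s = t := by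
  apply nerve.ext_of_isThin
  funext k
  exact h k

lemma nerve_map_obj {P : Type} [PartialOrder P] {p q : SimplexCategoryᵒᵖ} (θ : p ⟶ q)
    (s : (nerve P).obj p) (k : Fin (q.unop.len + 1)) :
    ((nerve P).map θ s).obj k = s.obj (θ.unop k) := rfl

/-- A simplex of the nerve of a poset as a monotone map. -/
def toHom {P : Type} [PartialOrder P] {p : SimplexCategoryᵒᵖ} (s : (nerve P).obj p) :
    V p.unop →o P where
  toFun i := s.obj i.down
  monotone' _ _ h := leOfHom (s.map (homOfLE h))

/-- A monotone map as a simplex of the nerve of a poset. -/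
def ofHom {P : Type} [PartialOrder P] {n : SimplexCategory} (f : V n →o P) :
    (nerve P).obj (op n) :=
  Monotone.functor (f := fun i : Fin (n.len + 1) => f (ULift.up i))
    (fun _ _ h => f.monotone h)

lemma ofHom_obj {P : Type} [PartialOrder P] {n : SimplexCategory} (f : V n →o P)
    (i : Fin (n.len + 1)) : (ofHom f).obj i = f (ULift.up i) := rfl

lemma toHom_apply {P : Type} [PartialOrder P] {p : SimplexCategoryᵒᵖ} (s : (nerve P).obj p)
    (i : V p.unop) : toHom s i = s.obj i.down := rfl

lemma sset_ext {X Y : SSet.{0}} {f g : X ⟶ Y} (h : ∀ p (s : X.obj p), f.app p s = g.app p s) :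
    f = g := by
  apply NatTrans.ext
  funext p
  apply ConcreteCategory.hom_ext
  intro s
  exact h p s

/-- A strictly monotone enumeration of a chain. -/
lemma exists_enum {P : Type} [PartialOrder P] (c : Ch P) :
    ∃ (n : SimplexCategory) (e : V n →o P), StrictMono e ∧ ∀ x, x ∈ c.finset ↔ ∃ a, e a = x := by
  classical
  let _ : LinearOrder {x // x ∈ c.finset} :=
    { (inferInstance : PartialOrder {x // x ∈ c.finset}) with
      le_total := fun a b => c.comparable a b
      toDecidableLE := Classical.decRel _ }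
  obtain ⟨r, hr⟩ : ∃ r, Fintype.card {x // x ∈ c.finset} = r + 1 := by
    have : 0 < Fintype.card {x // x ∈ c.finset} := by
      obtain ⟨x, hx⟩ := c.nonempty
      exact Fintype.card_pos_iff.2 ⟨⟨x, hx⟩⟩
    exact ⟨Fintype.card {x // x ∈ c.finset} - 1, by omega⟩
  let e := Fintype.orderIsoFinOfCardEq {x // x ∈ c.finset} hr
  refine ⟨SimplexCategory.mk r, ⟨fun i => (e i.down).1, ?_⟩, ?_, ?_⟩
  · intro i j h
    exact e.monotone h
  · intro i j h
    exact e.strictMono h
  · intro x
    constructor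
    · intro hx
      refine ⟨ULift.up (e.symm ⟨x, hx⟩), ?_⟩
      simp
    · rintro ⟨a, rfl⟩
      exact (e a.down).2

/-- Factorization of a monotone map through an injective one. -/
lemma exists_factor {P : Type} [PartialOrder P] {n : SimplexCategory} (σ : V n →o P) :
    ∃ (m : SimplexCategory) (τ : n ⟶ m) (ς : m ⟶ n) (e : V m →o P), Function.Injective e ∧
      σ = e.comp (vmap τ) ∧ e = σ.comp (vmap ς) := by
  classical
  let c : Ch P := ⟨Finset.univ.image σ, by simp, by
    rintro ⟨a, ha⟩ ⟨b, hb⟩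
    simp only [Finset.mem_image, Finset.mem_univ, true_and] at ha hb
    obtain ⟨a, rfl⟩ := ha
    obtain ⟨b, rfl⟩ := hb
    rcases le_total a b with h | h
    · exact Or.inl (σ.monotone h)
    · exact Or.inr (σ.monotone h)⟩
  obtain ⟨m, e, he, hc⟩ := exists_enum c
  have hex : ∀ i : V n, ∃ a : V m, e a = σ i := fun i => (hc (σ i)).1 (by
    change σ i ∈ Finset.univ.image σ
    simp)
  choose g hg using hex
  have hgm : Monotone (fun i : Fin (n.len + 1) => (g (ULift.up i)).down) := by
    intro i j h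
    by_contra hlt
    have hlt' : g (ULift.up j) < g (ULift.up i) := not_le.1 hlt
    have h1 := he hlt'
    rw [hg, hg] at h1
    exact absurd (σ.monotone (show ULift.up i ≤ ULift.up j from h)) (not_le_of_gt h1)
  have hex2 : ∀ a : V m, ∃ i : V n, σ i = e a := fun a => by
    have := (hc (e a)).2 ⟨a, rfl⟩
    change e a ∈ Finset.univ.image σ at this
    simpa using this
  choose g2 hg2 using hex2
  have hgm2 : Monotone (fun i : Fin (m.len + 1) => (g2 (ULift.up i)).down) := by
    intro i j h
    by_contra hlt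
    have hlt' : g2 (ULift.up j) ≤ g2 (ULift.up i) := (not_le.1 hlt).le
    have h1 := σ.monotone hlt'
    rw [hg2, hg2] at h1
    have h2 : e (ULift.up i) ≤ e (ULift.up j) := e.monotone h
    have h3 := he.injective (le_antisymm h2 h1)
    have h4 : i = j := congrArg ULift.down h3
    subst h4
    exact hlt le_rfl
  refine ⟨m, SimplexCategory.mkHom ⟨_, hgm⟩, SimplexCategory.mkHom ⟨_, hgm2⟩, e,
    he.injective, ?_, ?_⟩
  · ext i
    exact (hg i).symm
  · ext a
    exact (hg2 a).symm

/-- The image simplex of a simplex of chains. -/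
lemma chm_apply_mem {P Q : Type} [PartialOrder P] [PartialOrder Q] (f : P →o Q) (c : Ch P) (y : Q) :
    y ∈ (chm f c).finset ↔ ∃ x, x ∈ c.finset ∧ f x = y := by
  simp

lemma ch_ext {P : Type} [PartialOrder P] {c d : Ch P} (h : ∀ x, x ∈ c.finset ↔ x ∈ d.finset) :
    c = d := by
  apply NonemptyFiniteChains.ext
  ext x
  exact h x

lemma chm_comp {P Q R : Type} [PartialOrder P] [PartialOrder Q] [PartialOrder R]
    (f : P →o Q) (g : Q →o R) (c : Ch P) : chm g (chm f c) = chm (g.comp f) c := by
  apply ch_ext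
  intro x
  simp only [chm_apply_mem]
  constructor
  · rintro ⟨y, ⟨z, hz, rfl⟩, rfl⟩
    exact ⟨z, hz, rfl⟩
  · rintro ⟨z, hz, rfl⟩
    exact ⟨f z, ⟨z, hz, rfl⟩, rfl⟩

lemma chm_injective {P Q : Type} [PartialOrder P] [PartialOrder Q] (f : P →o Q)
    (hf : Function.Injective f) : Function.Injective (chm f) := by
  intro c d h
  apply ch_ext
  intro x
  have h1 : f x ∈ (chm f c).finset ↔ f x ∈ (chm f d).finset := by rw [h]
  simp only [chm_apply_mem] at h1
  constructor
  · intro hx
    obtain ⟨y, hy, hxy⟩ := h1.1 ⟨x, hx, rfl⟩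
    rwa [← hf hxy]
  · intro hx
    obtain ⟨y, hy, hxy⟩ := h1.2 ⟨x, hx, rfl⟩
    rwa [← hf hxy]

section glue

variable {P D : Type} [PartialOrder P] [PartialOrder D] (i : D ↪o Ch P) {Z : SSet.{0}}
  (good : ∀ n : SimplexCategory, (V n →o P) → Prop)
  (Φ : ∀ (n : SimplexCategory) (σ : V n →o P), good n σ → (nerve (Ch (V n)) ⟶ Z))

/-- The relation defining the glued map. -/
def Rel (p : SimplexCategoryᵒᵖ) (s : (nerve D).obj p) (z : Z.obj p) : Prop :=
  ∃ (n : SimplexCategory) (σ : V n →o P) (h : good n σ) (d : (nerve (Ch (V n))).obj p),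
    (∀ k, chm σ (d.obj k) = i (s.obj k)) ∧ (Φ n σ h).app p d = z

variable (hgood : ∀ (n m : SimplexCategory) (θ : n ⟶ m) (σ : V m →o P), good m σ →
    good n (σ.comp (vmap θ)))
  (hΦ : ∀ (n m : SimplexCategory) (θ : n ⟶ m) (σ : V m →o P) (h : good m σ)
    (h' : good n (σ.comp (vmap θ))), Φ n (σ.comp (vmap θ)) h' = nm (chm (vmap θ)) ≫ Φ m σ h)
  (h1 : ∀ (d : D) (n : SimplexCategory) (e : V n →o P), StrictMono e →
    (∀ x, x ∈ (i d).finset ↔ ∃ a, e a = x) → good n e)
  (h2 : ∀ (n : SimplexCategory) (σ : V n →o P), good n σ → ∀ c : Ch (V n), ∃ d, i d = chm σ c)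

include h1 in
lemma rel_exists (p : SimplexCategoryᵒᵖ) (s : (nerve D).obj p) :
    ∃ (n : SimplexCategory) (e : V n →o P) (_ : good n e) (d : (nerve (Ch (V n))).obj p),
      Function.Injective e ∧ (∀ k, chm e (d.obj k) = i (s.obj k)) ∧
      (∀ x, (∃ a, e a = x) ↔ x ∈ (i (s.obj (Fin.last _))).finset) := by
  classical
  obtain ⟨n, e, he, hc⟩ := exists_enum (i (s.obj (Fin.last _)))
  have hle : ∀ k, i (s.obj k) ≤ i (s.obj (Fin.last _)) := fun k =>
    i.monotone (leOfHom (s.map (homOfLE (Fin.le_last k))))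
  -- preimage chains
  let g : Fin (p.unop.len + 1) → Ch (V n) := fun k =>
    { finset := Finset.univ.filter (fun a => e a ∈ (i (s.obj k)).finset)
      nonempty := by
        obtain ⟨x, hx⟩ := (i (s.obj k)).nonempty
        obtain ⟨a, ha⟩ := (hc x).1 (hle k hx)
        exact ⟨a, by simp [ha, hx]⟩
      comparable := fun a b => le_total _ _ }
  have hg : Monotone g := by
    intro k l hkl a ha
    have h3 : i (s.obj k) ≤ i (s.obj l) := i.monotone (leOfHom (s.map (homOfLE hkl)))
    simp only [g, Finset.mem_filter, Finset.mem_univ, true_and] at ha ⊢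
    exact h3 ha
  refine ⟨n, e, h1 _ n e he hc, hg.functor, he.injective, ?_, fun x => (hc x).symm⟩
  intro k
  apply ch_ext
  intro x
  rw [chm_apply_mem]
  constructor
  · rintro ⟨a, ha, rfl⟩
    change a ∈ Finset.univ.filter (fun a => e a ∈ (i (s.obj k)).finset) at ha
    simpa using ha
  · intro hx
    obtain ⟨a, ha⟩ := (hc x).1 (hle k hx)
    refine ⟨a, ?_, ha⟩
    change a ∈ Finset.univ.filter (fun a => e a ∈ (i (s.obj k)).finset)
    simp [ha, hx]

include hgood hΦ in
lemma rel_unique_aux (p : SimplexCategoryᵒᵖ) (s : (nerve D).obj p)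
    (n : SimplexCategory) (e : V n →o P) (h : good n e) (d : (nerve (Ch (V n))).obj p)
    (he : Function.Injective e) (hd : ∀ k, chm e (d.obj k) = i (s.obj k))
    (hr : ∀ x, (∃ a, e a = x) ↔ x ∈ (i (s.obj (Fin.last _))).finset)
    (m : SimplexCategory) (σ : V m →o P) (h' : good m σ) (d' : (nerve (Ch (V m))).obj p)
    (hd' : ∀ k, chm σ (d'.obj k) = i (s.obj k)) :
    (Φ n e h).app p d = (Φ m σ h').app p d' := by
  classical
  obtain ⟨r, τ, ς, f, hf, rfl, hς⟩ := exists_factor σ
  -- a section
  have hex : ∀ a : V n, ∃ b : V m, (f.comp (vmap τ)) b = e a := by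
    intro a
    have h3 := (hr (e a)).1 ⟨a, rfl⟩
    rw [← hd' (Fin.last _), chm_apply_mem] at h3
    obtain ⟨b, _, hb⟩ := h3
    exact ⟨b, hb⟩
  choose g hg using hex
  have hes : StrictMono e := e.monotone.strictMono_of_injective he
  have hgm : Monotone (fun i : Fin (n.len + 1) => (g (ULift.up i)).down) := by
    intro a b hab
    by_contra hlt
    have hlt' : g (ULift.up b) ≤ g (ULift.up a) := (not_le.1 hlt).le
    have h3 := (f.comp (vmap τ)).monotone hlt'
    rw [hg, hg] at h3
    have h4 : e (ULift.up a) ≤ e (ULift.up b) := e.monotone hab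
    have h5 := he (le_antisymm h4 h3)
    have h6 : a = b := congrArg ULift.down h5
    subst h6
    exact hlt le_rfl
  let ι : n ⟶ m := SimplexCategory.mkHom ⟨_, hgm⟩
  have hι : e = (f.comp (vmap τ)).comp (vmap ι) := by
    ext a
    exact (hg a).symm
  -- the map `f` need not be good, so compare on the nose
  have key : (nm (chm (vmap τ))).app p ((nm (chm (vmap ι))).app p d)
      = (nm (chm (vmap τ))).app p d' := by
    apply nerve_ext
    intro k
    rw [nm_app, nm_app, nm_app]
    apply chm_injective f hf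
    rw [chm_comp, chm_comp, chm_comp, hd' k, ← hd k]
    congr 1
    rw [hι]
  have hfg : good r f := by
    rw [hς]
    exact hgood _ _ _ _ h'
  have e1 : (Φ m (f.comp (vmap τ)) h') = nm (chm (vmap τ)) ≫ Φ r f hfg := hΦ _ _ _ _ hfg h'
  have e2 : (Φ n e h).app p d = (Φ m (f.comp (vmap τ)) h').app p ((nm (chm (vmap ι))).app p d) := by
    subst hι
    rw [hΦ _ _ ι _ h' h]
    rfl
  rw [e2, e1]
  change (Φ r f hfg).app p ((nm (chm (vmap τ))).app p ((nm (chm (vmap ι))).app p d))
    = (Φ r f hfg).app p ((nm (chm (vmap τ))).app p d')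
  rw [key]

include hgood hΦ h1 in
lemma rel_unique (p : SimplexCategoryᵒᵖ) (s : (nerve D).obj p) (z z' : Z.obj p)
    (hz : Rel i good Φ p s z) (hz' : Rel i good Φ p s z') : z = z' := by
  obtain ⟨n, e, h, d, he, hd, hr⟩ := rel_exists i good h1 p s
  obtain ⟨m, σ, h', d', hd', rfl⟩ := hz
  obtain ⟨m2, σ2, h2', d2', hd2', rfl⟩ := hz'
  rw [← rel_unique_aux i good Φ hgood hΦ p s n e h d he hd hr m σ h' d' hd',
    ← rel_unique_aux i good Φ hgood hΦ p s n e h d he hd hr m2 σ2 h2' d2' hd2']

include hgood hΦ h1 in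
/-- Gluing of morphisms out of nerves of posets of chains. -/
theorem glue : ∃ ψ : nerve D ⟶ Z, ∀ (n : SimplexCategory) (σ : V n →o P) (h : good n σ)
    (p : SimplexCategoryᵒᵖ) (d : (nerve (Ch (V n))).obj p) (s : (nerve D).obj p),
    (∀ k, chm σ (d.obj k) = i (s.obj k)) → ψ.app p s = (Φ n σ h).app p d := by
  classical
  have hex : ∀ (p : SimplexCategoryᵒᵖ) (s : (nerve D).obj p), ∃ z, Rel i good Φ p s z := by
    intro p s
    obtain ⟨n, e, h, d, he, hd, hr⟩ := rel_exists i good h1 p s
    exact ⟨_, n, e, h, d, hd, rfl⟩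
  choose F hF using hex
  refine ⟨{ app := fun p => ↾(F p), naturality := ?_ }, ?_⟩
  · intro p q θ
    ext s
    change F q ((nerve D).map θ s) = Z.map θ (F p s)
    apply rel_unique i good Φ hgood hΦ h1 q _ _ _ (hF _ _)
    obtain ⟨n, σ, h, d, hd, hz⟩ := hF p s
    refine ⟨n, σ, h, (nerve (Ch (V n))).map θ d, ?_, ?_⟩
    · intro k
      rw [nerve_map_obj, nerve_map_obj]
      exact hd _
    · rw [← hz]
      exact (Φ n σ h).naturality_apply θ d
  · intro n σ h p d s hs
    exact rel_unique i good Φ hgood hΦ h1 p s _ _ (hF p s) ⟨n, σ, h, d, hs, rfl⟩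

end glue

end Pool.Agent.R795.EX
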