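import Pool.Agent.R795.EX.Glue

open CategoryTheory Simplicial Opposite PartialOrder

namespace Pool.Agent.R795.EX

/-- Every morphism from the nerve of `Q` to `Z` extends to the nerve of `P`. -/
def NExt {Q P : Type} [PartialOrder Q] [PartialOrder P] (i : Q →o P) (Z : SSet.{0}) : Prop :=
  ∀ f : nerve Q ⟶ Z, ∃ g : nerve P ⟶ Z, nm i ≫ g = f

lemma vmap_comp {n m r : SimplexCategory} (θ : n ⟶ m) (η : m ⟶ r) :
    vmap (θ ≫ η) = (vmap η).comp (vmap θ) := rfl

/-- Morphisms to `ex` obtained from morphisms out of the nerve of chains. -/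
noncomputable def toEx {P : Type} [PartialOrder P] {Z : SSet.{0}} (ψ : nerve (Ch P) ⟶ Z) :
    nerve P ⟶ SSet.ex.{0}.obj Z where
  app p := ↾fun s => (ULift.up (nm (chm (toHom s)) ≫ ψ) : (SSet.ex.{0}.obj Z).obj p)
  naturality p q θ := by
    ext s
    apply ULift.ext
    change nm (chm (toHom ((nerve P).map θ s))) ≫ ψ
      = nm (chm (vmap θ.unop)) ≫ (nm (chm (toHom s)) ≫ ψ)
    rw [← Category.assoc]
    congr 1
    apply sset_ext
    intro r d
    apply nerve_ext
    intro k
    change chm (toHom ((nerve P).map θ s)) (d.obj k)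
      = chm (toHom s) (chm (vmap θ.unop) (d.obj k))
    rw [chm_comp]
    rfl

lemma toEx_app {P : Type} [PartialOrder P] {Z : SSet.{0}} (ψ : nerve (Ch P) ⟶ Z)
    (p : SimplexCategoryᵒᵖ) (s : (nerve P).obj p) :
    (toEx ψ).app p s = (ULift.up (nm (chm (toHom s)) ≫ ψ) : (SSet.ex.{0}.obj Z).obj p) := rfl

lemma exists_toEx {Q : Type} [PartialOrder Q] {Z : SSet.{0}} (f : nerve Q ⟶ SSet.ex.{0}.obj Z) :
    ∃ ψ : nerve (Ch Q) ⟶ Z, toEx ψ = f := by
  let Φ : ∀ (n : SimplexCategory) (σ : V n →o Q), True → (nerve (Ch (V n)) ⟶ Z) :=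
    fun n σ _ => (f.app (op n) (ofHom σ)).down
  obtain ⟨ψ, hψ⟩ := glue (P := Q) (D := Ch Q) (RelIso.refl _).toRelEmbedding
    (fun _ _ => True) Φ (fun _ _ _ _ _ => trivial) (by
      intro n m θ σ h h'
      have h3 := f.naturality_apply (Quiver.Hom.op θ) (ofHom σ)
      exact congrArg ULift.down h3) (fun _ _ _ _ _ => trivial)
  refine ⟨ψ, ?_⟩
  apply NatTrans.ext
  funext p
  ext s
  apply ULift.ext
  apply NatTrans.ext
  funext r
  ext d
  exact hψ p.unop (toHom s) trivial r d _ (fun k => rfl)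

theorem nExt_ex {Q P : Type} [PartialOrder Q] [PartialOrder P] (i : Q →o P) (Z : SSet.{0})
    (h : NExt (chm i) Z) : NExt i (SSet.ex.{0}.obj Z) := by
  intro f
  obtain ⟨ψ, rfl⟩ := exists_toEx f
  obtain ⟨ψ', hψ'⟩ := h ψ
  refine ⟨toEx ψ', ?_⟩
  apply NatTrans.ext
  funext p
  ext s
  apply ULift.ext
  change nm (chm (toHom ((nm i).app p s))) ≫ ψ' = nm (chm (toHom s)) ≫ ψ
  rw [← hψ', ← Category.assoc]
  congr 1
  apply sset_ext
  intro r d
  apply nerve_ext
  intro k
  change chm (toHom ((nm i).app p s)) (d.obj k) = chm i (chm (toHom s) (d.obj k))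
  rw [chm_comp]
  rfl

/-- The poset of faces of the horn. -/
def HornP (m : ℕ) (k : Fin (m + 2)) : Type :=
  {c : Ch (V (SimplexCategory.mk (m + 1))) // ∃ j, j ≠ k ∧ ULift.up j ∉ c.finset}

instance (m : ℕ) (k : Fin (m + 2)) : PartialOrder (HornP m k) :=
  inferInstanceAs (PartialOrder {c : Ch (V (SimplexCategory.mk (m + 1))) //
    ∃ j, j ≠ k ∧ ULift.up j ∉ c.finset})

/-- The inclusion of the faces of the horn in the faces of the simplex. -/
def hornI (m : ℕ) (k : Fin (m + 2)) : HornP m k →o Ch (V (SimplexCategory.mk (m + 1))) where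
  toFun c := c.1
  monotone' _ _ h := h

/-- The inclusion as an order embedding. -/
def hornE (m : ℕ) (k : Fin (m + 2)) : HornP m k ↪o Ch (V (SimplexCategory.mk (m + 1))) :=
  OrderEmbedding.subtype _

/-- The simplex of the standard simplex given by a monotone map. -/
def splx {n m : SimplexCategory} (σ : V n →o V m) : (SSet.stdSimplex.{0}.obj m).obj (op n) :=
  SSet.stdSimplex.objEquiv.symm (SimplexCategory.mkHom
    ⟨fun i => (σ (ULift.up i)).down,
      fun i j h => σ.monotone (show (ULift.up i : V n) ≤ ULift.up j from h)⟩)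

lemma splx_apply {n m : SimplexCategory} (σ : V n →o V m) (i : Fin (n.len + 1)) :
    (SSet.stdSimplex.objEquiv (splx σ)) i = (σ (ULift.up i)).down := rfl

lemma splx_map {n m r : SimplexCategory} (θ : n ⟶ m) (σ : V m →o V r) :
    (SSet.stdSimplex.{0}.obj r).map θ.op (splx σ) = splx (σ.comp (vmap θ)) := rfl

lemma splx_surj {n m : SimplexCategory} (x : (SSet.stdSimplex.{0}.obj m).obj (op n)) :
    x = splx (vmap (SSet.stdSimplex.objEquiv x)) := by
  apply SSet.stdSimplex.objEquiv.injective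
  apply SimplexCategory.Hom.ext
  ext i : 2
  rfl

lemma splx_mem_horn {n : SimplexCategory} (m : ℕ) (k : Fin (m + 2))
    (σ : V n →o V (SimplexCategory.mk (m + 1))) :
    splx σ ∈ (SSet.horn.{0} (m + 1) k).obj (op n) ↔ ∃ j, j ≠ k ∧ ∀ i, σ i ≠ ULift.up j := by
  rw [SSet.mem_horn_iff]
  rw [Ne, Set.eq_univ_iff_forall, not_forall]
  apply exists_congr
  intro j
  rw [Set.mem_union, not_or, and_comm]
  apply and_congr
  · exact Iff.rfl
  · constructor
    · intro h i hi
      apply h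
      refine ⟨i.down, ?_⟩
      change (σ (ULift.up i.down)).down = j
      have : (ULift.up i.down : V n) = i := rfl
      rw [this, hi]
    · rintro h ⟨i, hi⟩
      apply h (ULift.up i)
      apply ULift.ext
      exact hi

open SSet.modelCategoryQuillen in
theorem kan_ex (Z : SSet.{0}) (h : ∀ (m : ℕ) (k : Fin (m + 2)), NExt (hornI m k) Z) :
    SSet.KanComplex (SSet.ex.{0}.obj Z) := by
  refine (HomotopicalAlgebra.isFibrant_iff _).2 ⟨?_⟩
  rw [SSet.modelCategoryQuillen.fibrations_eq]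
  intro _ _ _ hf
  simp only [SSet.modelCategoryQuillen.J, MorphismProperty.iSup_iff] at hf
  obtain ⟨m, ⟨k⟩⟩ := hf
  refine ⟨fun {t _} _ ↦ ?_⟩
  let good : ∀ n : SimplexCategory, (V n →o V (SimplexCategory.mk (m + 1))) → Prop :=
    fun n σ => splx σ ∈ (SSet.horn.{0} (m + 1) k).obj (op n)
  let Φ : ∀ (n : SimplexCategory) (σ : V n →o V (SimplexCategory.mk (m + 1))), good n σ →
      (nerve (Ch (V n)) ⟶ Z) := fun n σ hσ => (t.app (op n) ⟨splx σ, hσ⟩).down
  obtain ⟨ψ, hψ⟩ := glue (hornE m k) good Φ (by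
      intro n r θ σ hσ
      change splx (σ.comp (vmap θ)) ∈ _
      rw [← splx_map]
      exact (SSet.horn.{0} (m + 1) k).map θ.op hσ) (by
      intro n r θ σ hσ hσ'
      have h3 := t.naturality_apply (Quiver.Hom.op θ) ⟨splx σ, hσ⟩
      exact congrArg ULift.down h3) (by
      intro d n e he hc
      change splx e ∈ _
      rw [splx_mem_horn]
      obtain ⟨j, hj, hj2⟩ := d.2
      refine ⟨j, hj, fun i hi => hj2 ?_⟩
      exact (hc (ULift.up j)).2 ⟨i, hi⟩)
  obtain ⟨ψ', hψ'⟩ := h m k ψ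
  refine ⟨⟨{ l := SSet.yonedaEquiv.symm (ULift.up ψ'), fac_left := ?_, fac_right := ?_ }⟩⟩
  · apply sset_ext
    intro p s
    apply ULift.ext
    apply sset_ext
    intro r d
    obtain ⟨x, hx⟩ := s
    have hx' : splx (vmap (SSet.stdSimplex.objEquiv x)) ∈ (SSet.horn.{0} (m + 1) k).obj p := by
      rw [← splx_surj]
      exact hx
    change ψ'.app r ((nm (chm (vmap (SSet.stdSimplex.objEquiv x)))).app r d) = _
    have hg : ∀ c : Ch (V p.unop), ∃ j, j ≠ k ∧
        ULift.up j ∉ (chm (vmap (SSet.stdSimplex.objEquiv x)) c).finset := by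
      intro c
      obtain ⟨j, hj, hj2⟩ := (splx_mem_horn m k _).1 hx'
      refine ⟨j, hj, ?_⟩
      rw [chm_apply_mem]
      rintro ⟨i, _, hi⟩
      exact hj2 i hi
    let s' : (nerve (HornP m k)).obj r :=
      Monotone.functor (f := fun a : Fin (r.unop.len + 1) =>
        (⟨chm (vmap (SSet.stdSimplex.objEquiv x)) (d.obj a), hg _⟩ : HornP m k))
        (fun a b hab => (chm (vmap (SSet.stdSimplex.objEquiv x))).monotone
          (leOfHom (d.map (homOfLE hab))))
    have e1 := hψ p.unop (vmap (SSet.stdSimplex.objEquiv x)) hx' r d s' (fun a => rfl)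
    have e2 : (nm (chm (vmap (SSet.stdSimplex.objEquiv x)))).app r d = (nm (hornI m k)).app r s' := by
      apply nerve_ext
      intro a
      rfl
    rw [e2]
    have e3 : ψ'.app r ((nm (hornI m k)).app r s') = ψ.app r s' := by
      rw [← hψ']
      rfl
    rw [e3, e1]
    have e4 : (⟨splx (vmap (SSet.stdSimplex.objEquiv x)), hx'⟩ :
        ((SSet.horn.{0} (m + 1) k : SSet.{0})).obj p) = ⟨x, hx⟩ :=
      Subtype.ext (splx_surj x).symm
    have e5 : t.app p ⟨splx (vmap (SSet.stdSimplex.objEquiv x)), hx'⟩ = t.app p ⟨x, hx⟩ :=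
      congrArg (fun y => t.app p y) e4
    exact congrArg (fun y : (SSet.ex.{0}.obj Z).obj p => (ULift.down y).app r d) e5
  · subsingleton

end Pool.Agent.R795.EX
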