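import Pool.Agent.R795.EX.NonKan

open CategoryTheory Opposite PartialOrder

namespace Pool.Agent.R795.EX

lemma iterate_ex (X : SSet.{0}) (n : ℕ) : (SSet.ex.{0}.obj)^[n] X = exIter X n := by
  induction n with
  | zero => rfl
  | succ n ih =>
    rw [Function.iterate_succ_apply', ih]
    rfl

/-- For the fence of length `2 ^ n`, the `k`-fold `ex` is a Kan complex iff `n ≤ k`. -/
theorem kan_iff (n : ℕ) (hn : 1 ≤ n) (k : ℕ) :
    SSet.KanComplex ((SSet.ex.{0}.obj)^[k] (nerve (Fence (2 ^ n)))) ↔ n ≤ k := by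
  rw [iterate_ex]
  constructor
  · intro h
    by_contra hk
    exact not_kan_fence k (2 ^ n) (Nat.pow_lt_pow_right (by norm_num) (by omega)) h
  · intro hk
    obtain ⟨k, rfl⟩ : ∃ m, k = m + 1 := ⟨k - 1, by omega⟩
    apply kan_fence
    · obtain ⟨n, rfl⟩ : ∃ m, n = m + 1 := ⟨n - 1, by omega⟩
      rw [pow_succ]
      omega
    · exact Nat.pow_le_pow_right (by norm_num) hk

lemma kan_of_iso {X Y : SSet.{0}} (e : X ≅ Y) (hX : SSet.KanComplex X) : SSet.KanComplex Y := by
  rw [SSet.KanComplex.iff] at hX ⊢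
  intro n i f hf
  obtain ⟨φ, hφ⟩ := hX (fun j hj => f j hj ≫ e.inv) (by
    obtain _ | n := n
    · trivial
    · intro j k hj hk hjk
      have := hf j k hj hk hjk
      rw [← Category.assoc, ← Category.assoc, this])
  refine ⟨φ ≫ e.hom, fun j hj => ?_⟩
  rw [← Category.assoc, hφ j hj, Category.assoc, Iso.inv_hom_id, Category.comp_id]

section
variable (P : Type) [PartialOrder P]

/-- From the opposite category to the order dual. -/
def opToDual : Pᵒᵖ ⥤ Pᵒᵈ where
  obj X := OrderDual.toDual X.unop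
  map f := homOfLE (show OrderDual.toDual _ ≤ OrderDual.toDual _ from
    OrderDual.toDual_le_toDual.2 (leOfHom f.unop))

/-- From the order dual to the opposite category. -/
def dualToOp : Pᵒᵈ ⥤ Pᵒᵖ where
  obj X := op (OrderDual.ofDual X)
  map f := (homOfLE (show OrderDual.ofDual _ ≤ OrderDual.ofDual _ from leOfHom f)).op

/-- The nerves of the opposite category and of the order dual are isomorphic. -/
def nerveOpIso : nerve Pᵒᵖ ≅ nerve Pᵒᵈ where
  hom := nerveMap (opToDual P)
  inv := nerveMap (dualToOp P)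
  hom_inv_id := by
    apply sset_ext
    intro p s
    apply nerve.ext_of_isThin
    rfl
  inv_hom_id := by
    apply sset_ext
    intro p s
    apply nerve.ext_of_isThin
    rfl

end

lemma dual_rel (a b : (Fence 4)ᵒᵈ) (h : a ≤ b) :
    fle (OrderDual.ofDual b).val (OrderDual.ofDual a).val := h

/-- The double `ex` of the nerve of the opposite of the fence of length `4` is not Kan. -/
theorem not_kan_op : ¬ SSet.KanComplex (SSet.ex.{0}.obj (SSet.ex.{0}.obj (nerve (Fence 4)ᵒᵖ))) := by
  intro h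
  have h1 : SSet.KanComplex (exIter (nerve (Fence 4)ᵒᵈ) 2) :=
    kan_of_iso (SSet.ex.{0}.mapIso (SSet.ex.{0}.mapIso (nerveOpIso (Fence 4)))) h
  have key : ∀ a b : Fence 4, Relation.EqvGen (fun x y : Fence 4 => x ≤ y) a b →
      Relation.EqvGen (fun x y : (Fence 4)ᵒᵈ => x ≤ y) (OrderDual.toDual a)
        (OrderDual.toDual b) := by
    intro a b hab
    induction hab with
    | rel x y h =>
      exact Relation.EqvGen.symm _ _ (Relation.EqvGen.rel _ _ (OrderDual.toDual_le_toDual.2 h))
    | refl x => exact Relation.EqvGen.refl _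
    | symm x y _ ih => exact Relation.EqvGen.symm _ _ ih
    | trans x y z _ _ ih1 ih2 => exact Relation.EqvGen.trans _ _ _ ih1 ih2
  have h2 := rel_of_kan 2 h1 _ _ (key _ _ (fence_conn 4 4 le_rfl))
  obtain ⟨m, ⟨x, hx1, hx2⟩, ⟨y, hy1, hy2⟩⟩ := h2
  have a1 := dual_rel _ _ hx1
  have a2 := dual_rel _ _ hx2
  have a3 := dual_rel _ _ hy1
  have a4 := dual_rel _ _ hy2
  simp only [OrderDual.ofDual_toDual] at a1 a3
  unfold fle at a1 a2 a3 a4
  simp only [Nat.even_iff] at a1 a2 a3 a4
  omega

theorem kan_four : SSet.KanComplex (SSet.ex.{0}.obj (SSet.ex.{0}.obj (nerve (Fence 4)))) :=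
  kan_fence 1 4 rfl le_rfl

end Pool.Agent.R795.EX
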