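import Pool.Agent.R795.EX.Fence

open CategoryTheory Opposite PartialOrder

namespace Pool.Agent.R795.EX

/-- There is an edge from `x` to `y`. -/
def E (X : SSet.{0}) (x y : X.obj (op (SimplexCategory.mk 0))) : Prop :=
  ∃ e : X.obj (op (SimplexCategory.mk 1)), X.δ (1 : Fin 2) e = x ∧ X.δ (0 : Fin 2) e = y

lemma kan_edge {X : SSet.{0}} (hX : SSet.KanComplex X)
    {x y z : X.obj (op (SimplexCategory.mk 0))} (h1 : E X x z) (h2 : E X y z) : E X x y := by
  obtain ⟨e, he1, he2⟩ := h1
  obtain ⟨e', he1', he2'⟩ := h2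
  let f : ∀ (j : Fin 3) (_ : j ≠ 2), (SSet.stdSimplex.{0}.obj (SimplexCategory.mk 1)) ⟶ X :=
    fun j _ => if j = 0 then SSet.yonedaEquiv.symm e' else SSet.yonedaEquiv.symm e
  obtain ⟨φ, hφ⟩ := SSet.KanComplex.iff.1 hX (n := 1) (i := 2) f (by
    intro j k hj hk hjk
    have hj0 : j = 0 := by
      apply Fin.ext
      have h1 : j.val < k.val := hjk
      have h2 : k.val < 3 := k.isLt
      have h3 : k.val ≠ 2 := fun h => hk (Fin.ext h)
      change j.val = 0
      omega
    have hk1 : k = 1 := by
      apply Fin.ext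
      have h1 : j.val < k.val := hjk
      have h2 : k.val < 3 := k.isLt
      have h3 : k.val ≠ 2 := fun h => hk (Fin.ext h)
      change k.val = 1
      omega
    subst hj0
    subst hk1
    change SSet.stdSimplex.{0}.δ (0 : Fin 2) ≫ f 0 hj = SSet.stdSimplex.{0}.δ (0 : Fin 2) ≫ f 1 hk
    have e1 : f 0 hj = SSet.yonedaEquiv.symm e' := if_pos rfl
    have e2 : f 1 hk = SSet.yonedaEquiv.symm e := if_neg (by decide)
    rw [e1, e2, SSet.stdSimplex.δ_comp_yonedaEquiv_symm, SSet.stdSimplex.δ_comp_yonedaEquiv_symm,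
      he2, he2'])
  let s := SSet.yonedaEquiv φ
  have hs0 : X.δ (0 : Fin 3) s = e' := by
    have := hφ 0 (by decide)
    have e1 : f 0 (by decide) = SSet.yonedaEquiv.symm e' := if_pos rfl
    rw [e1] at this
    have h2 := congrArg SSet.yonedaEquiv this
    rw [Equiv.apply_symm_apply] at h2
    rw [← h2]
    exact (SSet.stdSimplex.yonedaEquiv_δ_comp _ _).symm
  have hs1 : X.δ (1 : Fin 3) s = e := by
    have := hφ 1 (by decide)
    have e1 : f 1 (by decide) = SSet.yonedaEquiv.symm e := if_neg (by decide)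
    rw [e1] at this
    have h2 := congrArg SSet.yonedaEquiv this
    rw [Equiv.apply_symm_apply] at h2
    rw [← h2]
    exact (SSet.stdSimplex.yonedaEquiv_δ_comp _ _).symm
  refine ⟨X.δ (2 : Fin 3) s, ?_, ?_⟩
  · rw [← he1, ← hs1]
    exact (X.δ_comp_δ_self_apply (i := (1 : Fin 2)) s).symm
  · rw [← he1', ← hs0]
    exact X.δ_comp_δ_apply (i := (0 : Fin 2)) (j := (1 : Fin 2)) (by decide) s

/-- The monotone map from the vertices of the interval given by two comparable elements. -/
def edgeHom {P : Type} [PartialOrder P] (a b : P) (h : a ≤ b) : V (SimplexCategory.mk 1) →o P where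
  toFun x := if x.down = (0 : Fin 2) then a else b
  monotone' := by
    intro x y hxy
    obtain ⟨x⟩ := x
    obtain ⟨y⟩ := y
    have hxy' : x ≤ y := hxy
    change (if x = (0 : Fin 2) then a else b) ≤ (if y = (0 : Fin 2) then a else b)
    split_ifs with h1 h2 h2
    · exact le_rfl
    · exact h
    · exfalso
      subst h2
      exact h1 (Fin.le_zero_iff.1 hxy')
    · exact le_rfl

/-- The vertex of the nerve given by an element. -/
def pt {P : Type} [PartialOrder P] (a : P) : (nerve P).obj (op (SimplexCategory.mk 0)) :=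
  ofHom (n := SimplexCategory.mk 0) ⟨fun _ => a, fun _ _ _ => le_rfl⟩

lemma δ_one_edge {P : Type} [PartialOrder P] (a b : P) (h : a ≤ b) :
    (nerve P).δ (1 : Fin 2) (ofHom (n := SimplexCategory.mk 1) (edgeHom a b h)) = pt a := by
  apply nerve_ext
  intro k
  have hk : k = (0 : Fin 1) := Subsingleton.elim (α := Fin 1) _ _
  subst hk
  rfl

lemma δ_zero_edge {P : Type} [PartialOrder P] (a b : P) (h : a ≤ b) :
    (nerve P).δ (0 : Fin 2) (ofHom (n := SimplexCategory.mk 1) (edgeHom a b h)) = pt b := by
  apply nerve_ext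
  intro k
  have hk : k = (0 : Fin 1) := Subsingleton.elim (α := Fin 1) _ _
  subst hk
  rfl

lemma E_map {P : Type} [PartialOrder P] {Z : SSet.{0}} (f : nerve P ⟶ Z) (a b : P) (h : a ≤ b) :
    E Z (f.app _ (pt a)) (f.app _ (pt b)) := by
  refine ⟨f.app _ (ofHom (n := SimplexCategory.mk 1) (edgeHom a b h)), ?_, ?_⟩
  · rw [← δ_one_edge a b h]
    exact (f.naturality_apply (SimplexCategory.δ (1 : Fin 2)).op _).symm
  · rw [← δ_zero_edge a b h]
    exact (f.naturality_apply (SimplexCategory.δ (0 : Fin 2)).op _).symm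

lemma chm_sing {P Q : Type} [PartialOrder P] [PartialOrder Q] (f : P →o Q) (x : P) :
    chm f (sing x) = sing (f x) := by
  apply ch_ext
  intro z
  rw [chm_apply_mem, mem_sing]
  constructor
  · rintro ⟨w, hw, rfl⟩
    rw [mem_sing] at hw
    rw [hw]
  · intro hz
    exact ⟨x, by rw [mem_sing], hz.symm⟩

section
variable {C : Type} [PartialOrder C]

/-- The iterated cospan relation. -/
def rel : ℕ → C → C → Prop
  | 0, a, b => a ≤ b
  | n + 1, a, b => ∃ m, rel n a m ∧ rel n b m

/-- The vertex of `C` underlying a vertex of the iterated `ex`. -/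
noncomputable def vt : ∀ n : ℕ, (exIter (nerve C) n).obj (op (SimplexCategory.mk 0)) → C
  | 0, s => s.obj (0 : Fin 1)
  | n + 1, z => vt n ((ULift.down z : nerve (Ch (V (SimplexCategory.mk 0))) ⟶ _).app
      (op (SimplexCategory.mk 0)) (pt (sing (ULift.up 0))))

lemma rel_of_edge (n : ℕ) : ∀ (x y : (exIter (nerve C) n).obj (op (SimplexCategory.mk 0))),
    E (exIter (nerve C) n) x y → rel n (vt n x) (vt n y) := by
  induction n with
  | zero =>
    rintro x y ⟨e, rfl, rfl⟩
    change e.obj _ ≤ e.obj _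
    exact leOfHom (e.map (homOfLE (by decide)))
  | succ n ih =>
    rintro x y ⟨e, rfl, rfl⟩
    let W : SimplexCategory := SimplexCategory.mk 1
    let h : nerve (Ch (V W)) ⟶ exIter (nerve C) n := ULift.down e
    let c0 : Ch (V W) := sing (ULift.up 0)
    let c1 : Ch (V W) := sing (ULift.up 1)
    let c01 : Ch (V W) := uni c0 c1 (fun _ _ _ _ => le_total _ _)
    have h0 := ih _ _ (E_map h c0 c01 (le_uni_left _ _ _))
    have h1 := ih _ _ (E_map h c1 c01 (le_uni_right _ _ _))
    have key : ∀ i : Fin 2, vt (n + 1) ((exIter (nerve C) (n + 1)).δ i e)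
        = vt n (h.app _ (pt (sing (vmap (SimplexCategory.δ i) (ULift.up 0))))) := by
      intro i
      change vt n (h.app _ ((nm (chm (vmap (SimplexCategory.δ i)))).app _ (pt (sing (ULift.up 0)))))
        = _
      rw [← chm_sing]
      rfl
    refine ⟨vt n (h.app _ (pt c01)), ?_, ?_⟩
    · rw [key]
      exact h0
    · rw [key]
      exact h1

open Classical in
/-- The maximum of a chain. -/
noncomputable def chmax : Ch C →o C where
  toFun c := (exists_max c).choose
  monotone' c d h := (exists_max d).choose_spec.2 _ (h (exists_max c).choose_spec.1)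

lemma chmax_sing (x : C) : chmax (sing x) = x := by
  have := (exists_max (sing x)).choose_spec.1
  rw [mem_sing] at this
  exact this

/-- The iterated last vertex morphism. -/
noncomputable def lv : ∀ n : ℕ, nerve C ⟶ exIter (nerve C) n
  | 0 => 𝟙 _
  | n + 1 => toEx (nm chmax ≫ lv n)

lemma vt_lv (n : ℕ) (a : C) : vt n ((lv n).app _ (pt a)) = a := by
  induction n with
  | zero => rfl
  | succ n ih =>
    change vt n ((lv n).app _ ((nm chmax).app _ ((nm (chm (toHom (pt a)))).app _
      (pt (sing (ULift.up 0)))))) = a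
    have : (nm chmax).app _ ((nm (chm (toHom (pt a)))).app _
      (pt (sing (ULift.up (0 : Fin 1))))) = pt a := by
      apply nerve_ext
      intro k
      change chmax (chm (toHom (pt a)) (sing (ULift.up 0))) = a
      rw [chm_sing, chmax_sing]
      rfl
    rw [this]
    exact ih

/-- In a Kan complex, connected elements are related. -/
lemma rel_of_kan (n : ℕ) (hK : SSet.KanComplex (exIter (nerve C) n)) (a b : C)
    (h : Relation.EqvGen (fun x y : C => x ≤ y) a b) : rel n a b := by
  have hr : ∀ x, E (exIter (nerve C) n) ((lv n).app _ (pt x)) ((lv n).app _ (pt x)) :=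
    fun x => E_map (lv n) x x le_rfl
  have key : E (exIter (nerve C) n) ((lv n).app _ (pt a)) ((lv n).app _ (pt b)) := by
    induction h with
    | rel x y h => exact E_map (lv n) x y h
    | refl x => exact hr x
    | symm x y _ ih => exact kan_edge hK (hr y) ih
    | trans x y z _ _ ih1 ih2 => exact kan_edge hK ih1 (kan_edge hK (hr z) ih2)
  have := rel_of_edge n _ _ key
  rwa [vt_lv, vt_lv] at this

end

lemma rel_fence (M n : ℕ) (a b : Fence M) (h : rel n a b) :
    b.val ≤ a.val + 2 ^ n ∧ a.val ≤ b.val + 2 ^ n := by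
  induction n generalizing a b with
  | zero =>
    have h' : fle a.val b.val := h
    unfold fle at h'
    simp only [pow_zero]
    omega
  | succ n ih =>
    obtain ⟨m, h1, h2⟩ := h
    have e1 := ih _ _ h1
    have e2 := ih _ _ h2
    rw [pow_succ]
    omega

lemma fence_conn (M : ℕ) (k : ℕ) (hk : k ≤ M) :
    Relation.EqvGen (fun x y : Fence M => x ≤ y) ⟨0, Nat.zero_le _⟩ ⟨k, hk⟩ := by
  induction k with
  | zero => exact Relation.EqvGen.refl _
  | succ k ih =>
    refine Relation.EqvGen.trans _ _ _ (ih (by omega)) ?_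
    rcases Nat.even_or_odd k with hke | hko
    · exact Relation.EqvGen.rel _ _ (Or.inr ⟨hke, Or.inl rfl⟩)
    · exact Relation.EqvGen.symm _ _ (Relation.EqvGen.rel _ _ (Or.inr ⟨hko.add_one, Or.inr rfl⟩))

/-- The iterated `ex` of the nerve of a long fence is not a Kan complex. -/
theorem not_kan_fence (n M : ℕ) (h : 2 ^ n < M) :
    ¬ SSet.KanComplex (exIter (nerve (Fence M)) n) := by
  intro hK
  have h1 := rel_of_kan n hK _ _ (fence_conn M M le_rfl)
  have h2 := (rel_fence M n _ _ h1).1
  simp only at h2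
  omega

end Pool.Agent.R795.EX
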