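import Pool.Agent.R795.EX.Horn

open PartialOrder

namespace Pool.Agent.R795.EX

/-- `UD s x y`: there is a zigzag `x ≤ p₁ ≥ x₁ ≤ p₂ ≥ ⋯ ≥ y` with `s` tops. -/
inductive UD {R : Type} [PartialOrder R] : ℕ → R → R → Prop
  | refl (x : R) : UD 0 x x
  | step {s : ℕ} {x r p y : R} : UD s x r → r ≤ p → y ≤ p → UD (s + 1) x y

section
variable {R : Type} [PartialOrder R]

lemma UD.zero {x y : R} (h : UD 0 x y) : x = y := by
  cases h
  rfl

lemma UD.succ {s : ℕ} {x y : R} (h : UD (s + 1) x y) : ∃ r p, UD s x r ∧ r ≤ p ∧ y ≤ p := by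
  cases h with
  | step h1 h2 h3 => exact ⟨_, _, h1, h2, h3⟩

lemma UD.pad {s t : ℕ} {x y : R} (h : UD s x y) (hst : s ≤ t) : UD t x y := by
  induction hst with
  | refl => exact h
  | step _ ih => exact UD.step ih le_rfl le_rfl

lemma UD.trans {s t : ℕ} {x y z : R} (h : UD s x y) (h' : UD t y z) : UD (s + t) x z := by
  induction h' with
  | refl => exact h
  | step _ h2 h3 ih => exact UD.step (ih h) h2 h3

lemma UD.le_right {s : ℕ} {x y z : R} (h : UD s x y) (hs : 1 ≤ s) (hz : z ≤ y) : UD s x z := by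
  obtain ⟨t, rfl⟩ : ∃ t, s = t + 1 := ⟨s - 1, by omega⟩
  obtain ⟨r, p, h1, h2, h3⟩ := h.succ
  exact UD.step h1 h2 (hz.trans h3)

/-- The chain with one element. -/
def sing (x : R) : Ch R := ⟨{x}, by simp, by
  rintro ⟨a, ha⟩ ⟨b, hb⟩
  simp only [Finset.mem_singleton] at ha hb
  subst ha
  subst hb
  exact Or.inl le_rfl⟩

lemma mem_sing (x y : R) : y ∈ (sing x).finset ↔ y = x := by
  simp [sing]

open Classical in
/-- The union of two chains whose elements are comparable. -/
noncomputable def uni (A B : Ch R) (h : ∀ a ∈ A.finset, ∀ b ∈ B.finset, a ≤ b ∨ b ≤ a) : Ch R :=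
  ⟨A.finset ∪ B.finset, by
    obtain ⟨x, hx⟩ := A.nonempty
    exact ⟨x, Finset.mem_union_left _ hx⟩, by
    rintro ⟨a, ha⟩ ⟨b, hb⟩
    rcases Finset.mem_union.1 ha with ha | ha <;> rcases Finset.mem_union.1 hb with hb | hb
    · exact A.comparable ⟨a, ha⟩ ⟨b, hb⟩
    · exact h a ha b hb
    · exact (h b hb a ha).symm
    · exact B.comparable ⟨a, ha⟩ ⟨b, hb⟩⟩

lemma le_uni_left (A B : Ch R) (h) : A ≤ uni A B h := by
  classical
  intro x hx
  exact Finset.mem_union_left _ hx

lemma le_uni_right (A B : Ch R) (h) : B ≤ uni A B h := by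
  classical
  intro x hx
  exact Finset.mem_union_right _ hx

lemma UD.uni_step {s : ℕ} {a A B : Ch R} (h : UD s a A)
    (hc : ∀ x ∈ A.finset, ∀ y ∈ B.finset, x ≤ y ∨ y ≤ x) : UD (s + 1) a B :=
  UD.step h (le_uni_left A B hc) (le_uni_right A B hc)

lemma exists_max (A : Ch R) : ∃ u ∈ A.finset, ∀ v ∈ A.finset, v ≤ u := by
  obtain ⟨u, hu⟩ := A.finset.exists_maximal A.nonempty
  refine ⟨u, hu.1, fun v hv => ?_⟩
  rcases A.comparable ⟨v, hv⟩ ⟨u, hu.1⟩ with h | h
  · exact h
  · exact hu.2 hv h

/-- Zigzags of points give zigzags of chains. -/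
lemma UD.chains {k : ℕ} {u w : R} (h : UD k u w) (hk : 1 ≤ k) (A B : Ch R)
    (hu : ∀ v ∈ A.finset, v ≤ u) (hw : ∀ v ∈ B.finset, v ≤ w) :
    UD (2 * k) A B := by
  induction k generalizing w B with
  | zero => omega
  | succ k ih =>
    obtain ⟨r, p, h1, h2, h3⟩ := h.succ
    have last : ∀ (t : ℕ), UD t A (sing p) → UD (t + 1) A B := by
      intro t ht
      apply ht.uni_step
      intro x hx y hy
      rw [mem_sing] at hx
      subst hx
      exact Or.inr ((hw y hy).trans h3)
    rcases Nat.eq_zero_or_pos k with rfl | hk'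
    · have e := h1.zero
      subst e
      apply last
      apply (UD.refl A).uni_step
      intro x hx y hy
      rw [mem_sing] at hy
      subst hy
      exact Or.inl ((hu x hx).trans h2)
    · have h4 := ih h1 hk' (sing r) (fun v hv => by rw [mem_sing] at hv; exact hv.le)
      have h5 : UD (2 * k + 1) A (sing p) := by
        apply h4.uni_step
        intro x hx y hy
        rw [mem_sing] at hx hy
        subst hx
        subst hy
        exact Or.inl h2
      exact last _ h5

end

section
variable {Q P : Type} [PartialOrder Q] [PartialOrder P]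

/-- Down-closed order embeddings. -/
structure DC (i : Q →o P) : Prop where
  emb : ∀ a b, i a ≤ i b → a ≤ b
  down : ∀ p q, p ≤ i q → ∃ q', i q' = p

/-- Short zigzags in `P` between points of `Q` can be replaced by zigzags in `Q`. -/
def KP (N : ℕ) (i : Q →o P) : Prop :=
  ∀ s, 2 * s < N → ∀ q q', UD s (i q) (i q') → UD s q q'

lemma DC.inj {i : Q →o P} (h : DC i) : Function.Injective i := fun a b e =>
  le_antisymm (h.emb a b e.le) (h.emb b a e.ge)

lemma DC.chm {i : Q →o P} (h : DC i) : DC (chm i) where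
  emb a b hab := by
    intro x hx
    have h1 : i x ∈ (EX.chm i a).finset := (chm_apply_mem _ _ _).2 ⟨x, hx, rfl⟩
    have h2 := hab h1
    rw [chm_apply_mem] at h2
    obtain ⟨y, hy, hxy⟩ := h2
    rwa [← h.inj hxy]
  down p q hpq := by
    classical
    have hex : ∀ x ∈ p.finset, ∃ y, i y = x := by
      intro x hx
      have h2 := hpq hx
      rw [chm_apply_mem] at h2
      obtain ⟨y, _, hxy⟩ := h2
      exact ⟨y, hxy⟩
    refine ⟨⟨(p.finset.attach.image (fun x => (hex x.1 x.2).choose)), ?_, ?_⟩, ?_⟩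
    · obtain ⟨x, hx⟩ := p.nonempty
      exact ⟨_, Finset.mem_image_of_mem _ (Finset.mem_attach _ ⟨x, hx⟩)⟩
    · rintro ⟨a, ha⟩ ⟨b, hb⟩
      simp only [Finset.mem_image, Finset.mem_attach, true_and, Subtype.exists] at ha hb
      obtain ⟨a', ha', rfl⟩ := ha
      obtain ⟨b', hb', rfl⟩ := hb
      have e1 := (hex a' ha').choose_spec
      have e2 := (hex b' hb').choose_spec
      rcases p.comparable ⟨a', ha'⟩ ⟨b', hb'⟩ with hab | hab
      · left
        apply h.emb
        rw [e1, e2]
        exact hab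
      · right
        apply h.emb
        rw [e1, e2]
        exact hab
    · apply ch_ext
      intro x
      rw [chm_apply_mem]
      simp only [Finset.mem_image, Finset.mem_attach, true_and, Subtype.exists]
      constructor
      · rintro ⟨y, ⟨a, ha, rfl⟩, rfl⟩
        rw [(hex a ha).choose_spec]
        exact ha
      · intro hx
        exact ⟨_, ⟨x, hx, rfl⟩, (hex x hx).choose_spec⟩

lemma kp_two {i : Q →o P} (h : DC i) : KP 2 i := by
  intro s hs q q' hq
  obtain rfl : s = 0 := by omega
  have := h.inj hq.zero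
  subst this
  exact UD.refl _

/-- The state of an excursion outside of `Q`. -/
def Exc (i : Q →o P) (a : Ch Q) (s : ℕ) (x : P) : Prop :=
  ∃ (j t : ℕ) (A : Ch Q) (u : Q), j + t = s ∧ (∀ v ∈ A.finset, v ≤ u) ∧ UD j a A ∧
    ((∃ (k : ℕ) (r : P), UD k (i u) r ∧ r ≤ x ∧ 2 * k + 1 ≤ t) ∨
      (∃ k : ℕ, 1 ≤ k ∧ UD k (i u) x ∧ 2 * k ≤ t))

lemma main_aux {i : Q →o P} (hi : DC i) {N : ℕ} (hN : KP N i) (a : Ch Q) (s : ℕ) (hs : s < N) :
    (∀ b : Ch Q, UD s (chm i a) (chm i b) → UD s a b) ∧
    (1 ≤ s → ∀ x : P, (∀ q, i q ≠ x) → UD s (chm i a) (sing x) → Exc i a s x) := by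
  induction s with
  | zero =>
    refine ⟨fun b hb => ?_, fun h => by omega⟩
    have := chm_injective i hi.inj hb.zero
    subst this
    exact UD.refl _
  | succ s ih =>
    obtain ⟨ih1, ih2⟩ := ih (by omega)
    -- points of the previous chain
    have prev : ∀ D : Ch P, UD s (chm i a) D → 1 ≤ s → ∀ y ∈ D.finset,
        (∃ y', i y' = y ∧ UD s a (sing y')) ∨ ((∀ q, i q ≠ y) ∧ Exc i a s y) := by
      intro D hD hs1 y hy
      have h1 : UD s (chm i a) (sing y) := hD.le_right hs1 (by
        intro z hz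
        change z ∈ (sing y).finset at hz
        rw [mem_sing] at hz
        subst hz
        exact hy)
      by_cases hq : ∃ q, i q = y
      · obtain ⟨y', rfl⟩ := hq
        left
        refine ⟨y', rfl, ih1 _ ?_⟩
        have e : chm i (sing y') = sing (i y') := by
          apply ch_ext
          intro z
          rw [chm_apply_mem, mem_sing]
          constructor
          · rintro ⟨w, hw, rfl⟩
            rw [mem_sing] at hw
            rw [hw]
          · intro hz
            exact ⟨y', by rw [mem_sing], hz.symm⟩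
        rw [e]
        exact h1
      · have hq' : ∀ q, i q ≠ y := fun q hqq => hq ⟨q, hqq⟩
        exact Or.inr ⟨hq', ih2 hs1 y hq' h1⟩
    have cmp : ∀ (C : Ch P) (x y : P), x ∈ C.finset → y ∈ C.finset → x ≤ y ∨ y ≤ x :=
      fun C x y hx hy => C.comparable ⟨x, hx⟩ ⟨y, hy⟩
    constructor
    · intro b hb
      obtain ⟨D, C, h1, h2, h3⟩ := hb.succ
      have hbC : ∀ z ∈ b.finset, i z ∈ C.finset := fun z hz =>
        h3 ((chm_apply_mem _ _ _).2 ⟨z, hz, rfl⟩)
      rcases Nat.eq_zero_or_pos s with rfl | hs1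
      · have e := h1.zero
        subst e
        apply (UD.refl a).uni_step
        intro x hx y hy
        rcases cmp C (i x) (i y) (h2 ((chm_apply_mem _ _ _).2 ⟨x, hx, rfl⟩)) (hbC y hy) with h | h
        · exact Or.inl (hi.emb _ _ h)
        · exact Or.inr (hi.emb _ _ h)
      · obtain ⟨y, hy⟩ := D.nonempty
        rcases prev D h1 hs1 y hy with ⟨y', rfl, h4⟩ | ⟨hq, j, t, A, u, hjt, hu, hA, hE⟩
        · apply h4.uni_step
          intro x hx z hz
          rw [mem_sing] at hx
          subst hx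
          rcases cmp C (i x) (i z) (h2 hy) (hbC z hz) with h | h
          · exact Or.inl (hi.emb _ _ h)
          · exact Or.inr (hi.emb _ _ h)
        · have hle : ∀ z ∈ b.finset, i z ≤ y := by
            intro z hz
            rcases cmp C (i z) y (hbC z hz) (h2 hy) with h | h
            · exact h
            · obtain ⟨q', hq'⟩ := hi.down _ _ h
              exact absurd hq' (hq q')
          obtain ⟨w, hw, hwm⟩ := exists_max b
          have hk : ∃ k, 1 ≤ k ∧ UD k (i u) (i w) ∧ 2 * k ≤ t + 1 := by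
            rcases hE with ⟨k, r, hk1, hk2, hk3⟩ | ⟨k, hk1, hk2, hk3⟩
            · exact ⟨k + 1, by omega, UD.step hk1 hk2 (hle w hw), by omega⟩
            · exact ⟨k, hk1, hk2.le_right hk1 (hle w hw), by omega⟩
          obtain ⟨k, hk1, hk2, hk3⟩ := hk
          have h5 := hN k (by omega) u w hk2
          have h6 := h5.chains hk1 A b hu hwm
          exact (hA.trans h6).pad (by omega)
    · intro _ x hx hD
      obtain ⟨D, C, h1, h2, h3⟩ := hD.succ
      have hxC : x ∈ C.finset := h3 (by
        change x ∈ (sing x).finset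
        rw [mem_sing])
      rcases Nat.eq_zero_or_pos s with rfl | hs1
      · have e := h1.zero
        subst e
        obtain ⟨u, hu, hum⟩ := exists_max a
        refine ⟨0, 1, a, u, rfl, hum, UD.refl _, Or.inl ⟨0, i u, UD.refl _, ?_, by omega⟩⟩
        rcases cmp C (i u) x (h2 ((chm_apply_mem _ _ _).2 ⟨u, hu, rfl⟩)) hxC with h | h
        · exact h
        · obtain ⟨q', hq'⟩ := hi.down _ _ h
          exact absurd hq' (hx q')
      · obtain ⟨y, hy⟩ := D.nonempty
        rcases prev D h1 hs1 y hy with ⟨y', rfl, h4⟩ | ⟨hq, j, t, A, u, hjt, hu, hA, hE⟩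
        · refine ⟨s, 1, sing y', y', rfl, fun v hv => ?_, h4,
            Or.inl ⟨0, i y', UD.refl _, ?_, by omega⟩⟩
          · rw [mem_sing] at hv
            exact hv.le
          · rcases cmp C (i y') x (h2 hy) hxC with h | h
            · exact h
            · obtain ⟨q', hq'⟩ := hi.down _ _ h
              exact absurd hq' (hx q')
        · refine ⟨j, t + 1, A, u, by omega, hu, hA, ?_⟩
          rcases cmp C y x (h2 hy) hxC with h | h
          · left
            rcases hE with ⟨k, r, hk1, hk2, hk3⟩ | ⟨k, hk1, hk2, hk3⟩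
            · exact ⟨k, r, hk1, hk2.trans h, by omega⟩
            · exact ⟨k, y, hk2, h, by omega⟩
          · right
            rcases hE with ⟨k, r, hk1, hk2, hk3⟩ | ⟨k, hk1, hk2, hk3⟩
            · exact ⟨k + 1, by omega, UD.step hk1 hk2 h, by omega⟩
            · exact ⟨k, hk1, hk2.le_right hk1 h, by omega⟩

/-- Passing to chains doubles the length of the zigzags which can be replaced. -/
theorem KP.chm {i : Q →o P} (hi : DC i) {N : ℕ} (hN : KP N i) : KP (2 * N) (chm i) := by
  intro s hs a b h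
  exact (main_aux hi hN a s (by omega)).1 b h

end

end Pool.Agent.R795.EX
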